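import Mathlib

set_option autoImplicit false

/-!
Combinatorial part: a family of two-valued functions on the rational plane such that every
vertical line stays locally dense for all finite patterns, and such that every set is either
separated pointwise by the functions or contains a relatively open piece of a vertical line.
-/

open Topology Set Cardinal

namespace Pool.Agent.Lib.MP_c7df87_gt

/-- the rational plane -/
abbrev P : Type := ℚ × ℚ

/-- every vertical line is locally dense for all finite patterns -/
def P1 {I : Type} (φ : P → I → Bool) : Prop :=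
  ∀ (x : P) (r : ℝ), 0 < r → ∀ (a : Finset I) (v : I → Bool),
    ∃ y : P, y.1 = x.1 ∧ dist y x < r ∧ ∀ i ∈ a, φ y i = v i

/-- `A` contains the part of the vertical line through `x` near `x` -/
def Piece {I : Type} (φ : P → I → Bool) (A : Set P) (x : P) : Prop :=
  ∃ r : ℝ, 0 < r ∧ ∃ a : Finset I, ∀ y : P, y.1 = x.1 → dist y x < r →
    (∀ i ∈ a, φ y i = φ x i) → y ∈ A

/-- dichotomy for all subsets -/
def P2 {I : Type} (φ : P → I → Bool) : Prop :=
  ∀ A : Set P, (∀ x : P, ∃ i : I, ∀ y ∈ A, y ≠ x → φ y i ≠ φ x i) ∨ ∃ x ∈ A, Piece φ A x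

/-- a family of large sets has an injective transversal -/
theorem exists_transversal {J α : Type} (S : J → Set α) (h : ∀ i, #J ≤ #(S i)) :
    ∃ f : J → α, Function.Injective f ∧ ∀ i, f i ∈ S i := by
  classical
  have hcard : #J = #((#J).ord.ToType) := (mk_ord_toType _).symm
  obtain ⟨e⟩ := Cardinal.eq.1 hcard
  have key : ∀ (i : J) (prev : ∀ j : J, e j < e i → α), ∃ a ∈ S i, ∀ (j : J) (hj : e j < e i),
      prev j hj ≠ a := by
    intro i prev
    by_contra hcon
    push Not at hcon
    have hsub : S i ⊆ range (fun j : {j : J // e j < e i} => prev j.1 j.2) := by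
      intro a ha
      obtain ⟨j, hj, hja⟩ := hcon a ha
      exact ⟨⟨j, hj⟩, hja⟩
    have h1 : #(S i) ≤ #{j : J // e j < e i} := (mk_le_mk_of_subset hsub).trans mk_range_le
    have h2 : #{j : J // e j < e i} ≤ #(Iio (e i)) :=
      mk_le_of_injective (f := fun j => (⟨e j.1, j.2⟩ : Iio (e i)))
        (fun a b hab => Subtype.ext (e.injective (Subtype.ext_iff.1 hab)))
    have h3 : #(Iio (e i)) < #J := mk_Iio_toType_ord_lt (e i)
    exact absurd ((h i).trans (h1.trans h2)) (not_le.2 h3)
  choose g hg1 hg2 using key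
  have wf : WellFounded (fun a b : J => e a < e b) := InvImage.wf e wellFounded_lt
  let f : J → α := wf.fix g
  have hf : ∀ i, f i = g i (fun j _ => f j) := fun i => wf.fix_eq g i
  refine ⟨f, ?_, fun i => by rw [hf]; exact hg1 _ _⟩
  have hlt : ∀ i j, e i < e j → f i ≠ f j := by
    intro i j hij
    have := hg2 j (fun k _ => f k) i hij
    rwa [← hf] at this
  intro i j hij
  rcases lt_trichotomy (e i) (e j) with h' | h' | h'
  · exact absurd hij (hlt i j h')
  · exact e.injective h'
  · exact absurd hij.symm (hlt j i h')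

/-- a function from the rationals onto any countable type with dense fibres -/
theorem exists_dense_fibres (N : Type) [Countable N] [Nonempty N] :
    ∃ c : ℚ → N, ∀ (n : N) (x : ℚ) (r : ℝ), 0 < r → ∃ q : ℚ, dist q x < r ∧ c q = n := by
  classical
  let J : Type := ((ℚ × {δ : ℚ // 0 < δ}) × N)
  let S : J → Set ℚ := fun j => Ioo j.1.1 (j.1.1 + j.1.2.1)
  have hS : ∀ j, #J ≤ #(S j) := by
    intro j
    have h1 : #J ≤ aleph0 := mk_le_aleph0
    have h2 : (S j).Infinite := Ioo_infinite (by have := j.1.2.2; linarith)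
    exact h1.trans (by rw [← infinite_iff]; exact h2.to_subtype)
  obtain ⟨f, hf1, hf2⟩ := exists_transversal S hS
  refine ⟨fun q => if h : ∃ j, f j = q then (Classical.choose h).2 else Classical.arbitrary N, ?_⟩
  intro n x r hr
  obtain ⟨δ, hδ0, hδ⟩ := exists_rat_btwn hr
  have hδ' : 0 < δ := by exact_mod_cast hδ0
  let j : J := ((x, ⟨δ, hδ'⟩), n)
  refine ⟨f j, ?_, ?_⟩
  · have h1 : x < f j ∧ f j < x + δ := hf2 j
    rw [Rat.dist_eq, abs_lt]
    have h2 : (x : ℝ) < f j := by exact_mod_cast h1.1
    have h3 : (f j : ℝ) < x + δ := by exact_mod_cast h1.2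
    constructor <;> linarith
  · have hex : ∃ j', f j' = f j := ⟨j, rfl⟩
    have h1 : Classical.choose hex = j := hf1 (Classical.choose_spec hex)
    simp only [hex, dif_pos]
    rw [h1]

/-- index set of the coordinates -/
abbrev Ix : Type := Set P × P

open Classical in
/-- an independent family -/
noncomputable def g0 (n : Finset P × Finset (Finset P × P)) (i : Ix) : Bool :=
  decide ((n.1.filter (fun z => z ∈ i.1), i.2) ∈ n.2)

open Classical in
theorem g0_indep (a : Finset Ix) (v : Ix → Bool) : ∃ n, ∀ i ∈ a, g0 n i = v i := by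
  -- points separating the sets
  have hd : ∀ i j : Ix, ∃ z : P, i.1 ≠ j.1 → ¬ (z ∈ i.1 ↔ z ∈ j.1) := by
    intro i j
    by_cases hij : i.1 = j.1
    · exact ⟨(0, 0), fun h => absurd hij h⟩
    · by_contra hcon
      push Not at hcon
      apply hij
      ext z
      have := hcon z
      tauto
  choose d hd using hd
  let F : Finset P := (a ×ˢ a).image fun p => d p.1 p.2
  have hF : ∀ i ∈ a, ∀ j ∈ a, F.filter (fun z => z ∈ i.1) = F.filter (fun z => z ∈ j.1) →
      i.1 = j.1 := by
    intro i hi j hj hij
    by_contra hne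
    have h1 := hd i j hne
    have h2 : d i j ∈ F := Finset.mem_image.2 ⟨(i, j), Finset.mem_product.2 ⟨hi, hj⟩, rfl⟩
    apply h1
    have h3 := Finset.ext_iff.1 hij (d i j)
    simp only [Finset.mem_filter, h2, true_and] at h3
    exact h3
  refine ⟨(F, (a.filter fun i => v i = true).image fun i => (F.filter (fun z => z ∈ i.1), i.2)), ?_⟩
  intro i hi
  have key : (F.filter (fun z => z ∈ i.1), i.2) ∈
      ((a.filter fun i => v i = true).image fun i => (F.filter (fun z => z ∈ i.1), i.2)) ↔
      v i = true := by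
    constructor
    · intro h
      obtain ⟨j, hj, hji⟩ := Finset.mem_image.1 h
      rw [Finset.mem_filter] at hj
      rw [Prod.mk.injEq] at hji
      have h1 := hF j hj.1 i hi hji.1
      have h2 : j = i := Prod.ext h1 hji.2
      rw [← h2]; exact hj.2
    · intro h
      exact Finset.mem_image.2 ⟨i, Finset.mem_filter.2 ⟨hi, h⟩, rfl⟩
  unfold g0
  by_cases hv : v i = true
  · rw [hv]; simp only [key.2 hv, decide_true]
  · have hv' : v i = false := by simpa using hv
    rw [hv']
    have : ¬ ((F.filter (fun z => z ∈ i.1), i.2) ∈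
      ((a.filter fun i => v i = true).image fun i => (F.filter (fun z => z ∈ i.1), i.2))) :=
      fun h => hv (key.1 h)
    simp only [this, decide_false]

open Classical in
/-- modification of the coordinates belonging to the sets in `K` -/
noncomputable def modif (g : P → Ix → Bool) (K : Set (Set P)) (y : P) (i : Ix) : Bool :=
  if i.1 ∈ K ∧ y ∈ i.1 ∧ y ≠ i.2 then !(g i.2 i) else g y i

/-- existence of the family of functions -/
theorem exists_phi : ∃ φ : P → Ix → Bool, P1 φ ∧ P2 φ := by
  classical
  obtain ⟨c, hc⟩ := exists_dense_fibres (Finset P × Finset (Finset P × P))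
  let g : P → Ix → Bool := fun x => g0 (c x.2)
  have hg : P1 g := by
    intro x r hr a v
    obtain ⟨n, hn⟩ := g0_indep a v
    obtain ⟨q, hq, hcq⟩ := hc n x.2 r hr
    refine ⟨(x.1, q), rfl, ?_, ?_⟩
    · rw [Prod.dist_eq]
      simp only [dist_self]
      exact max_lt hr hq
    · intro i hi
      simp only [g, hcq]
      exact hn i hi
  have hmod0 : modif g ∅ = g := by
    funext y i
    simp [modif]
  obtain ⟨K, -, hK⟩ := zorn_subset_nonempty {K : Set (Set P) | P1 (modif g K)} (by
    intro ch hch hchain hne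
    refine ⟨⋃₀ ch, ?_, fun s hs => subset_sUnion_of_mem hs⟩
    intro x r hr a v
    -- a member of the chain which contains all relevant sets
    have hfin : ((a.image Prod.fst).filter (fun A => A ∈ ⋃₀ ch) : Set (Set P)) ⊆ ⋃ i ∈ ch, id i := by
      intro A hA
      simp only [Finset.coe_filter, mem_ofPred_eq] at hA
      obtain ⟨s, hs, hAs⟩ := hA.2
      exact mem_biUnion hs hAs
    obtain ⟨K, hKch, hKsub⟩ := DirectedOn.exists_mem_subset_of_finset_subset_biUnion hne
      (f := id) (hchain.directedOn) hfin
    obtain ⟨y, hy1, hy2, hy3⟩ := hch hKch x r hr a v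
    refine ⟨y, hy1, hy2, ?_⟩
    intro i hi
    rw [← hy3 i hi]
    have hiff : i.1 ∈ ⋃₀ ch ↔ i.1 ∈ K := by
      constructor
      · intro h
        apply hKsub
        simp only [Finset.coe_filter, mem_ofPred_eq, Finset.mem_image]
        exact ⟨⟨i, hi, rfl⟩, h⟩
      · intro h
        exact ⟨K, hKch, h⟩
    simp only [modif, hiff]) ∅ (by
      show P1 (modif g ∅)
      rw [hmod0]; exact hg)
  have hKP : P1 (modif g K) := hK.prop
  refine ⟨modif g K, hKP, ?_⟩
  intro A
  by_cases hA : A ∈ K
  · left
    intro x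
    refine ⟨(A, x), ?_⟩
    intro y hyA hyx
    have h1 : modif g K y (A, x) = !(g x (A, x)) := by
      unfold modif
      rw [if_pos ⟨hA, hyA, hyx⟩]
    have h2 : modif g K x (A, x) = g x (A, x) := by
      unfold modif
      rw [if_neg]
      rintro ⟨-, -, h⟩
      exact h rfl
    rw [h1, h2]
    cases g x (A, x) <;> simp
  · right
    have hnot : ¬ P1 (modif g (insert A K)) := by
      intro h
      exact hA (hK.le_of_ge (show insert A K ∈ {K : Set (Set P) | P1 (modif g K)} from h)
        (subset_insert A K) (mem_insert A K))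
    unfold P1 at hnot
    push Not at hnot
    obtain ⟨x, r, hr, a, v, hbad⟩ := hnot
    obtain ⟨y0, hy1, hy2, hy3⟩ := hKP x r hr a v
    have key : ∀ y : P, y.1 = x.1 → dist y x < r → (∀ i ∈ a, modif g K y i = v i) → y ∈ A := by
      intro y h1 h2 h3
      by_contra hyA
      obtain ⟨i, hi, hne⟩ := hbad y h1 h2
      apply hne
      rw [← h3 i hi]
      unfold modif
      by_cases hiA : i.1 = A
      · rw [if_neg, if_neg]
        · rintro ⟨-, h, -⟩; rw [hiA] at h; exact hyA h
        · rintro ⟨-, h, -⟩; rw [hiA] at h; exact hyA h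
      · have : i.1 ∈ insert A K ↔ i.1 ∈ K := by
          rw [mem_insert_iff]; tauto
        simp only [this]
    refine ⟨y0, key y0 hy1 hy2 hy3, r - dist y0 x, by linarith, a, ?_⟩
    intro y h1 h2 h3
    refine key y (h1.trans hy1) ?_ (fun i hi => (h3 i hi).trans (hy3 i hi))
    have := dist_triangle y y0 x
    linarith

end Pool.Agent.Lib.MP_c7df87_gt
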