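import Mathlib

set_option autoImplicit false

/-! Definitions for the problem on Whyburn and D-separable spaces.  A subset `F` of a space is
discrete when `DiscreteTopology F` holds for the subspace topology. -/

open Topology Set

namespace Pool.Agent.Lib.MP_c7df87_gt

/-- Whyburn property: if `p` is in the closure of `A` but not in `A`, then some `B ⊆ A` has
closure exactly `B ∪ {p}`. -/
def Whyburn (X : Type) [TopologicalSpace X] : Prop :=
  ∀ (A : Set X) (p : X), p ∈ closure A → p ∉ A → ∃ B ⊆ A, closure B = B ∪ {p}

/-- `d`-separable: some countable union of discrete subsets is dense. -/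
def SmallDSeparable (X : Type) [TopologicalSpace X] : Prop :=
  ∃ F : ℕ → Set X, (∀ n, DiscreteTopology (F n)) ∧ Dense (⋃ n, F n)

/-- `D`-separable: from every sequence of dense sets one can select discrete subsets with dense
union. -/
def BigDSeparable (X : Type) [TopologicalSpace X] : Prop :=
  ∀ D : ℕ → Set X, (∀ n, Dense (D n)) →
    ∃ F : ℕ → Set X, (∀ n, F n ⊆ D n) ∧ (∀ n, DiscreteTopology (F n)) ∧ Dense (⋃ n, F n)

end Pool.Agent.Lib.MP_c7df87_gt
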