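import Mathlib
import Pool.Agent.Lib.MP_c7df87_gt.Defs
import Pool.Agent.Lib.MP_c7df87_gt.Comb

set_option autoImplicit false

/-!
Topological part: the topology on the rational plane generated by the usual one and the functions
of the combinatorial part.
-/

open Topology Set Filter

namespace Pool.Agent.Lib.MP_c7df87_gt

/-- the rational plane with a finer topology -/
def Sp {I : Type} (_φ : P → I → Bool) : Type := P

section

variable {I : Type} (φ : P → I → Bool)

/-- the map inducing the topology -/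
def emb (x : Sp φ) : P × (I → Bool) := (x, φ x)

instance : TopologicalSpace (Sp φ) := TopologicalSpace.induced (emb φ) inferInstance

theorem emb_isEmbedding : IsEmbedding (emb φ) :=
  ⟨⟨rfl⟩, fun _ _ h => (Prod.mk.inj h).1⟩

instance : T3Space (Sp φ) := (emb_isEmbedding φ).t3Space

instance : Countable (Sp φ) := inferInstanceAs (Countable P)

/-- the point as a member of the plane -/
def pt (x : Sp φ) : P := x

/-- basic neighbourhoods -/
def nb (x : Sp φ) (r : ℝ) (a : Finset I) : Set (Sp φ) :=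
  {y | dist (pt φ y) (pt φ x) < r ∧ ∀ i ∈ a, φ y i = φ x i}

variable {φ}

theorem mem_nb {x y : Sp φ} {r : ℝ} {a : Finset I} :
    y ∈ nb φ x r a ↔ dist (pt φ y) (pt φ x) < r ∧ ∀ i ∈ a, φ y i = φ x i := Iff.rfl

theorem self_mem_nb (x : Sp φ) {r : ℝ} (hr : 0 < r) (a : Finset I) : x ∈ nb φ x r a :=
  ⟨by rw [dist_self]; exact hr, fun _ _ => rfl⟩

theorem continuous_pt : Continuous (pt φ) :=
  continuous_fst.comp (emb_isEmbedding φ).continuous

theorem continuous_coord (i : I) : Continuous (fun y : Sp φ => φ y i) :=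
  (continuous_apply i).comp (continuous_snd.comp (emb_isEmbedding φ).continuous)

theorem isOpen_nb (x : Sp φ) (r : ℝ) (a : Finset I) : IsOpen (nb φ x r a) := by
  have h1 : IsOpen {y : Sp φ | dist (pt φ y) (pt φ x) < r} :=
    isOpen_lt (continuous_pt.dist continuous_const) continuous_const
  have h2 : IsOpen (⋂ i ∈ a, {y : Sp φ | φ y i = φ x i}) := by
    refine isOpen_biInter_finset fun i _ => ?_
    exact (isOpen_discrete {φ x i}).preimage (continuous_coord i)
  have h3 : nb φ x r a = {y : Sp φ | dist (pt φ y) (pt φ x) < r} ∩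
      (⋂ i ∈ a, {y : Sp φ | φ y i = φ x i}) := by
    ext y
    simp only [mem_nb, mem_inter_iff, mem_ofPred_eq, mem_iInter]
  rw [h3]
  exact h1.inter h2

theorem isClosed_cnb (x : Sp φ) (r : ℝ) (a : Finset I) :
    IsClosed {y : Sp φ | (pt φ y).1 = (pt φ x).1 ∧ dist (pt φ y) (pt φ x) ≤ r ∧
      ∀ i ∈ a, φ y i = φ x i} := by
  have h0 : IsClosed {y : Sp φ | (pt φ y).1 = (pt φ x).1} :=
    isClosed_eq (continuous_fst.comp continuous_pt) continuous_const
  have h1 : IsClosed {y : Sp φ | dist (pt φ y) (pt φ x) ≤ r} :=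
    isClosed_le (continuous_pt.dist continuous_const) continuous_const
  have h2 : IsClosed (⋂ i ∈ a, {y : Sp φ | φ y i = φ x i}) := by
    refine isClosed_biInter fun i _ => ?_
    exact isClosed_eq (continuous_coord i) continuous_const
  have h3 : {y : Sp φ | (pt φ y).1 = (pt φ x).1 ∧ dist (pt φ y) (pt φ x) ≤ r ∧
      ∀ i ∈ a, φ y i = φ x i} = {y : Sp φ | (pt φ y).1 = (pt φ x).1} ∩
      ({y : Sp φ | dist (pt φ y) (pt φ x) ≤ r} ∩ (⋂ i ∈ a, {y : Sp φ | φ y i = φ x i})) := by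
    ext y
    simp only [mem_inter_iff, mem_ofPred_eq, mem_iInter]
  rw [h3]
  exact h0.inter (h1.inter h2)

theorem nb_mem_nhds (x : Sp φ) {r : ℝ} (hr : 0 < r) (a : Finset I) : nb φ x r a ∈ 𝓝 x :=
  (isOpen_nb x r a).mem_nhds (self_mem_nb x hr a)

theorem mem_nhds_iff' {x : Sp φ} {t : Set (Sp φ)} (ht : t ∈ 𝓝 x) :
    ∃ r : ℝ, 0 < r ∧ ∃ a : Finset I, nb φ x r a ⊆ t := by
  classical
  rw [(emb_isEmbedding φ).nhds_eq_comap, mem_comap] at ht
  obtain ⟨s, hs, hst⟩ := ht
  have hs : s ∈ 𝓝 ((pt φ x, φ x) : P × (I → Bool)) := hs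
  rw [nhds_prod_eq, mem_prod_iff] at hs
  obtain ⟨U, hU, V, hV, hUV⟩ := hs
  obtain ⟨r, hr, hrU⟩ := Metric.mem_nhds_iff.1 hU
  rw [nhds_pi, Filter.mem_pi] at hV
  obtain ⟨J, hJ, W, hW, hWV⟩ := hV
  refine ⟨r, hr, hJ.toFinset, ?_⟩
  intro y hy
  rw [mem_nb] at hy
  apply hst
  apply hUV
  refine mk_mem_prod (hrU (Metric.mem_ball.2 hy.1)) (hWV ?_)
  intro i hi
  rw [hy.2 i (hJ.mem_toFinset.2 hi)]
  exact mem_of_mem_nhds (hW i)

theorem mem_closure_iff' {x : Sp φ} {A : Set (Sp φ)} :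
    x ∈ closure A ↔ ∀ r : ℝ, 0 < r → ∀ a : Finset I, ∃ y ∈ A, y ∈ nb φ x r a := by
  constructor
  · intro h r hr a
    obtain ⟨y, hy1, hy2⟩ := mem_closure_iff_nhds.1 h _ (nb_mem_nhds x hr a)
    exact ⟨y, hy2, hy1⟩
  · intro h
    rw [mem_closure_iff_nhds]
    intro t ht
    obtain ⟨r, hr, a, ha⟩ := mem_nhds_iff' ht
    obtain ⟨y, hy1, hy2⟩ := h r hr a
    exact ⟨y, ha hy2, hy1⟩

/-- near every point there is another point of the same vertical line -/
theorem exists_ne (h1 : P1 φ) (x : P) {r : ℝ} (hr : 0 < r) (a : Finset I) :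
    ∃ y : P, y ≠ x ∧ y.1 = x.1 ∧ dist y x < r ∧ ∀ i ∈ a, φ y i = φ x i := by
  obtain ⟨δ, hδ0, hδ⟩ := exists_rat_btwn (half_pos hr)
  have hd : dist ((x.1, x.2 + δ) : P) x = δ := by
    rw [Prod.dist_eq, dist_self, Rat.dist_eq]
    push_cast
    rw [add_sub_cancel_left, abs_of_pos hδ0]
    exact max_eq_right hδ0.le
  obtain ⟨y, hy1, hy2, hy3⟩ := h1 (x.1, x.2 + δ) (δ / 2) (half_pos hδ0) a (φ x)
  refine ⟨y, ?_, hy1, ?_, hy3⟩
  · rintro rfl
    rw [dist_comm, hd] at hy2
    linarith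
  · calc dist y x ≤ dist y (x.1, x.2 + δ) + dist ((x.1, x.2 + δ) : P) x := dist_triangle _ _ _
      _ < δ / 2 + δ := by rw [hd]; linarith
      _ < r := by linarith

/-- the Whyburn property -/
theorem whyburn [Nonempty I] (h1 : P1 φ) (h2 : P2 φ) : Whyburn (Sp φ) := by
  classical
  intro A p hp hpA
  let G : Set (Sp φ) := {x | x ∈ A ∧ Piece φ A x}
  -- the point is in the closure of the part of `A` consisting of pieces
  have hpG : p ∈ closure G := by
    rw [mem_closure_iff']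
    rcases h2 (A \ G) with hcd | ⟨x, ⟨hxA, hxG⟩, r, hr, a, ha⟩
    · obtain ⟨i, hi⟩ := hcd p
      intro r hr a
      obtain ⟨y, hyA, hy⟩ := mem_closure_iff'.1 hp r hr (insert i a)
      rw [mem_nb] at hy
      refine ⟨y, ?_, ?_⟩
      · by_contra hyG
        have hne : (y : P) ≠ p := by
          intro h
          apply hpA
          have h' : y = p := h
          rw [← h']; exact hyA
        exact hi y ⟨hyA, hyG⟩ hne (hy.2 i (Finset.mem_insert_self _ _))
      · exact ⟨hy.1, fun j hj => hy.2 j (Finset.mem_insert_of_mem hj)⟩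
    · exfalso
      apply hxG
      exact ⟨hxA, r, hr, a, fun y hy1 hy2 hy3 => (ha y hy1 hy2 hy3).1⟩
  -- radii and finite sets of coordinates of the pieces
  have hch : ∀ x : Sp φ, ∃ (r : ℝ) (a : Finset I), x ∈ G → 0 < r ∧ ∀ y : P,
      y.1 = (pt φ x).1 → dist y (pt φ x) < r → (∀ i ∈ a, φ y i = φ x i) → y ∈ A := by
    intro x
    by_cases hx : x ∈ G
    · obtain ⟨-, r, hr, a, ha⟩ := hx
      exact ⟨r, a, fun _ => ⟨hr, ha⟩⟩
    · exact ⟨0, ∅, fun h => absurd h hx⟩
  choose rad cof hrc using hch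
  have hcount : (⋃ x : Sp φ, (cof x : Set I)).Countable :=
    countable_iUnion fun x => (cof x).countable_toSet
  obtain ⟨e, he⟩ := countable_iff_exists_subset_range.1 hcount
  let b : ℕ → Finset I := fun j => (Finset.range (j + 1)).image e
  -- the selected points
  have hsel : ∀ j : ℕ, ∃ y ∈ G, y ∈ nb φ p ((1 / 2) ^ j) (b j) := fun j =>
    mem_closure_iff'.1 hpG _ (by positivity) _
  choose x hxG hxp using hsel
  let ρ : ℕ → ℝ := fun j => min (rad (x j)) ((1 / 2) ^ j - dist (pt φ (x j)) (pt φ p)) / 2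
  have hρ0 : ∀ j, 0 < ρ j := fun j => by
    have h3 := (hrc (x j) (hxG j)).1
    have h4 := (mem_nb.1 (hxp j)).1
    have : 0 < min (rad (x j)) ((1 / 2) ^ j - dist (pt φ (x j)) (pt φ p)) :=
      lt_min h3 (by linarith)
    exact half_pos this
  have hρ1 : ∀ j, ρ j < rad (x j) := fun j => by
    have h3 := hρ0 j
    have h4 : ρ j * 2 ≤ rad (x j) := by
      simp only [ρ]; rw [div_mul_cancel₀ _ (by norm_num : (2 : ℝ) ≠ 0)]; exact min_le_left _ _
    linarith
  have hρ2 : ∀ j, ρ j + dist (pt φ (x j)) (pt φ p) < (1 / 2) ^ j := fun j => by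
    have h3 := hρ0 j
    have h4 : ρ j * 2 ≤ (1 / 2) ^ j - dist (pt φ (x j)) (pt φ p) := by
      simp only [ρ]; rw [div_mul_cancel₀ _ (by norm_num : (2 : ℝ) ≠ 0)]; exact min_le_right _ _
    linarith
  let B : ℕ → Set (Sp φ) := fun j => {y : Sp φ | (pt φ y).1 = (pt φ (x j)).1 ∧
    dist (pt φ y) (pt φ (x j)) ≤ ρ j ∧ ∀ i ∈ cof (x j) ∪ b j, φ y i = φ (x j) i}
  have hBcl : ∀ j, IsClosed (B j) := fun j => isClosed_cnb _ _ _
  have hBA : ∀ j, B j ⊆ A := by
    intro j y hy
    refine (hrc (x j) (hxG j)).2 y hy.1 (lt_of_le_of_lt hy.2.1 (hρ1 j)) ?_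
    exact fun i hi => hy.2.2 i (Finset.mem_union_left _ hi)
  have hBp : ∀ j, ∀ y ∈ B j, dist (pt φ y) (pt φ p) < (1 / 2) ^ j := by
    intro j y hy
    have h3 := dist_triangle (pt φ y) (pt φ (x j)) (pt φ p)
    have h4 := hρ2 j
    have h5 := hy.2.1
    linarith
  refine ⟨⋃ j, B j, iUnion_subset hBA, ?_⟩
  apply Subset.antisymm
  · intro z hz
    by_cases hzp : z = p
    · exact Or.inr hzp
    · left
      have hpos : 0 < dist (pt φ z) (pt φ p) := dist_pos.2 hzp
      obtain ⟨j0, hj0⟩ := exists_pow_lt_of_lt_one (half_pos hpos) (by norm_num : (1 / 2 : ℝ) < 1)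
      have hz' : z ∈ closure (⋃ j ∈ Finset.range j0, B j) := by
        rw [mem_closure_iff']
        intro r hr a
        obtain ⟨y, hyB, hy⟩ := mem_closure_iff'.1 hz
          (min r (dist (pt φ z) (pt φ p) / 2)) (lt_min hr (half_pos hpos)) a
        rw [mem_nb] at hy
        obtain ⟨j, hj⟩ := mem_iUnion.1 hyB
        refine ⟨y, ?_, ⟨hy.1.trans_le (min_le_left _ _), hy.2⟩⟩
        simp only [mem_iUnion, Finset.mem_range, exists_prop]
        refine ⟨j, ?_, hj⟩
        by_contra hjj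
        push Not at hjj
        have h3 := hBp j y hj
        have h4 : ((1 : ℝ) / 2) ^ j ≤ (1 / 2) ^ j0 :=
          pow_le_pow_of_le_one (by norm_num) (by norm_num) hjj
        have h5 := hy.1.trans_le (min_le_right _ _)
        have h6 := dist_triangle (pt φ z) (pt φ y) (pt φ p)
        rw [dist_comm (pt φ z) (pt φ y)] at h6
        linarith
      have hcl : IsClosed (⋃ j ∈ Finset.range j0, B j) :=
        (Finset.finite_toSet _).isClosed_biUnion fun j _ => hBcl j
      rw [hcl.closure_eq] at hz'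
      simp only [mem_iUnion, Finset.mem_range, exists_prop] at hz' ⊢
      obtain ⟨j, -, hj⟩ := hz'
      exact ⟨j, hj⟩
  · rintro z (hz | hz)
    · exact subset_closure hz
    · rw [mem_singleton_iff] at hz
      rw [hz, mem_closure_iff']
      intro r hr a
      -- an index with small radius which covers the relevant coordinates
      have hidx : ∃ j1 : ℕ, ∀ i ∈ a, i ∈ range e → ∃ k ≤ j1, e k = i := by
        have hch : ∀ i : I, ∃ k : ℕ, i ∈ range e → e k = i := by
          intro i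
          by_cases hi : i ∈ range e
          · obtain ⟨k, hk⟩ := hi
            exact ⟨k, fun _ => hk⟩
          · exact ⟨0, fun h => absurd h hi⟩
        choose k hk using hch
        exact ⟨a.sup k, fun i hi hir => ⟨k i, Finset.le_sup hi, hk i hir⟩⟩
      obtain ⟨j1, hj1⟩ := hidx
      obtain ⟨j2, hj2⟩ := exists_pow_lt_of_lt_one hr (by norm_num : (1 / 2 : ℝ) < 1)
      let j : ℕ := max j1 j2
      have hjr : ((1 : ℝ) / 2) ^ j < r :=
        lt_of_le_of_lt (pow_le_pow_of_le_one (by norm_num) (by norm_num) (le_max_right _ _)) hj2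
      obtain ⟨y, hy1, hy2, hy3⟩ := h1 (pt φ (x j)) (ρ j) (hρ0 j) (cof (x j) ∪ b j ∪ a)
        (fun i => if i ∈ cof (x j) ∪ b j then φ (x j) i else φ p i)
      have hyB : (y : Sp φ) ∈ B j := by
        refine ⟨hy1, hy2.le, fun i hi => ?_⟩
        have := hy3 i (Finset.mem_union_left _ hi)
        rw [if_pos hi] at this
        exact this
      refine ⟨y, mem_iUnion.2 ⟨j, hyB⟩, (hBp j y hyB).trans hjr, ?_⟩
      intro i hi
      have h3 := hy3 i (Finset.mem_union_right _ hi)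
      by_cases hib : i ∈ b j
      · rw [if_pos (Finset.mem_union_right _ hib)] at h3
        rw [h3]
        exact (mem_nb.1 (hxp j)).2 i hib
      · by_cases hic : i ∈ cof (x j)
        · exfalso
          have h4 : i ∈ range e := he (mem_iUnion.2 ⟨x j, hic⟩)
          obtain ⟨k, hk, hki⟩ := hj1 i hi h4
          apply hib
          refine Finset.mem_image.2 ⟨k, Finset.mem_range.2 ?_, hki⟩
          have : j1 ≤ j := le_max_left _ _
          omega
        · rw [if_neg (by rw [Finset.mem_union]; tauto)] at h3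
          exact h3

/-- a relatively open part of a vertical line is not a finite union of discrete sets -/
theorem not_finite_union (h1 : P1 φ) (q : ℚ) (F : ℕ → Set (Sp φ))
    (hF : ∀ n, DiscreteTopology (F n)) : ∀ (m : ℕ) (O : Set (Sp φ)), IsOpen O →
      (∃ x ∈ O, (pt φ x).1 = q) → ∃ x ∈ O, (pt φ x).1 = q ∧ ∀ n < m, x ∉ F n := by
  intro m
  induction m with
  | zero =>
    rintro O - ⟨x, hx, hxq⟩
    exact ⟨x, hx, hxq, fun n hn => absurd hn (Nat.not_lt_zero n)⟩
  | succ m ih =>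
    rintro O hO ⟨x, hx, hxq⟩
    by_cases hex : ∃ y ∈ O, (pt φ y).1 = q ∧ y ∈ F m
    · obtain ⟨y, hyO, hyq, hyF⟩ := hex
      -- a neighbourhood isolating y in F m
      obtain ⟨U, hU, hyU, hUF⟩ : ∃ U : Set (Sp φ), IsOpen U ∧ y ∈ U ∧
          ∀ z ∈ U, z ∈ F m → z = y := by
        have hd := hF m
        have : IsOpen ({⟨y, hyF⟩} : Set (F m)) := isOpen_discrete _
        obtain ⟨U, hU, hUe⟩ := isOpen_induced_iff.1 this
        refine ⟨U, hU, ?_, fun z hz hzF => ?_⟩
        · have h3 : (⟨y, hyF⟩ : F m) ∈ (Subtype.val ⁻¹' U : Set (F m)) := by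
            rw [hUe]; exact mem_singleton _
          exact h3
        · have h3 : (⟨z, hzF⟩ : F m) ∈ (Subtype.val ⁻¹' U : Set (F m)) := hz
          rw [hUe] at h3
          exact Subtype.ext_iff.1 h3
      obtain ⟨r, hr, a, ha⟩ := mem_nhds_iff' ((hO.inter hU).mem_nhds ⟨hyO, hyU⟩)
      obtain ⟨z, hzy, hzq, hzr, hza⟩ := exists_ne h1 (pt φ y) hr a
      have hzO : (z : Sp φ) ∈ O ∩ U := ha ⟨hzr, hza⟩
      obtain ⟨w, hwO, hwq, hw⟩ := ih (O ∩ U ∩ {y}ᶜ)
        ((hO.inter hU).inter isClosed_singleton.isOpen_compl)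
        ⟨z, ⟨hzO, hzy⟩, (hzq.trans hyq : (pt φ z).1 = q)⟩
      refine ⟨w, hwO.1.1, hwq, fun n hn => ?_⟩
      rcases Nat.lt_succ_iff_lt_or_eq.1 hn with h | h
      · exact hw n h
      · rw [h]
        intro hwF
        exact hwO.2 (hUF w hwO.1.2 hwF)
    · push Not at hex
      obtain ⟨z, hzO, hzq, hz⟩ := ih O hO ⟨x, hx, hxq⟩
      refine ⟨z, hzO, hzq, fun n hn => ?_⟩
      rcases Nat.lt_succ_iff_lt_or_eq.1 hn with h | h
      · exact hz n h
      · rw [h]; exact hex z hzO hzq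

/-- the space is not `D`-separable -/
theorem not_bigDSeparable [Nonempty I] (h1 : P1 φ) (h2 : P2 φ) : ¬ BigDSeparable (Sp φ) := by
  classical
  obtain ⟨c, hc⟩ := exists_dense_fibres ℕ
  intro hD
  obtain ⟨F, hFD, hF, hdense⟩ := hD (fun n => {x : Sp φ | n ≤ c (pt φ x).1}) (by
    intro n
    rw [dense_iff_closure_eq, eq_univ_iff_forall]
    intro x
    rw [mem_closure_iff']
    intro r hr a
    obtain ⟨q, hq, hcq⟩ := hc n (pt φ x).1 (r / 2) (half_pos hr)
    obtain ⟨y, hy1, hy2, hy3⟩ := h1 (q, (pt φ x).2) (r / 2) (half_pos hr) a (φ x)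
    refine ⟨y, ?_, ?_, hy3⟩
    · show n ≤ c y.1
      rw [hy1]; exact hcq.ge
    · have h3 : dist ((q, (pt φ x).2) : P) (pt φ x) < r / 2 := by
        rw [Prod.dist_eq, dist_self]
        exact max_lt hq (half_pos hr)
      have h4 := dist_triangle (y : P) ((q, (pt φ x).2) : P) (pt φ x)
      show dist (y : P) (pt φ x) < r
      linarith)
  rcases h2 (⋃ n, F n) with hcd | ⟨x, hxF, r, hr, a, ha⟩
  · -- a dense set is not closed discrete
    let x : P := (0, 0)
    obtain ⟨i, hi⟩ := hcd x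
    obtain ⟨z, hzx, -, hzr, hza⟩ := exists_ne h1 x one_pos {i}
    have hopen : IsOpen (nb φ (x : Sp φ) 1 {i} ∩ {(x : Sp φ)}ᶜ) :=
      (isOpen_nb _ _ _).inter isClosed_singleton.isOpen_compl
    have hzmem : (z : Sp φ) ∈ nb φ (x : Sp φ) 1 {i} ∩ {(x : Sp φ)}ᶜ := ⟨⟨hzr, hza⟩, hzx⟩
    obtain ⟨w, hw, hwF⟩ := hdense.inter_open_nonempty _ hopen ⟨z, hzmem⟩
    exact hi w hwF hw.2 (hw.1.2 i (Finset.mem_singleton_self i))
  · -- a dense union contains no piece of a line
    obtain ⟨w, hwO, hwq, hw⟩ := not_finite_union h1 x.1 F hF (c x.1 + 1)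
      (nb φ (x : Sp φ) r a) (isOpen_nb _ _ _) ⟨x, self_mem_nb _ hr _, rfl⟩
    have hwF : (w : P) ∈ ⋃ n, F n := ha w hwq hwO.1 hwO.2
    obtain ⟨n, hn⟩ := mem_iUnion.1 hwF
    have h3 : n ≤ c (pt φ w).1 := hFD n hn
    rw [hwq] at h3
    exact hw n (Nat.lt_succ_of_le h3) hn

end

end Pool.Agent.Lib.MP_c7df87_gt
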